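import Pool.Agent.Run7.h278.LI.KLx
import Pool.Agent.Results.MP_553913_nt.NewmanConductor

set_option autoImplicit false

/-!
# MP_553913_nt: Li's criterion on thin sets of indices for elliptic curves over `ℚ` and all half-planes

Let `Λ = Λ(E, s)` be the completed L-function of an elliptic curve over `ℚ`. For `σ ≥ 1` and a real base point `a > σ` with `Λ(a) ≠ 0`
(for example any `a > 3/2`) let `λ_n = λ_n(σ, a)` be `n` times the coefficient of `z ^ n` of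
`log (Λ(σ + (a - σ) (1 + z) / (1 - z)) / Λ(a))`. For every set `S` of Bohr recurrence, `Λ` has no zeros with `Re s > σ` if and only if
`λ_n ≥ 0` for all `n ∈ S`; for `σ = 1` this is the Riemann hypothesis for `L(E, s)`.
-/

namespace Pool.Agent.Results.MP_553913_nt.LiRecurrence

open Complex UpperHalfPlane MatrixGroups CongruenceSubgroup
open Pool.Agent.Results.MP_553913_nt.NewmanConductor (IsFormOf IsCompleted coef)

/-- `Λ` has no zeros with `Re s > σ` -/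
def ZeroFree (Λ : ℂ → ℂ) (σ : ℝ) : Prop := ∀ s : ℂ, Λ s = 0 → s.re ≤ σ

/-- The Li coefficient `λ_n(σ, a)` of `Λ` with respect to the half-plane `Re s > σ` and the base point `a > σ`: the real part of `n` times
the coefficient of `z ^ n` in the Taylor series of `log (Λ(σ + (a - σ) (1 + z) / (1 - z)) / Λ(a))` at `z = 0` -/
noncomputable def li (Λ : ℂ → ℂ) (σ a : ℝ) (n : ℕ) : ℝ :=
  n * (iteratedDeriv n (fun z : ℂ => Complex.log (Λ (σ + (a - σ) * ((1 + z) / (1 - z))) / Λ a)) 0).re / n.factorial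

/-- `S` is a set of Bohr recurrence: for all real `θ_1, …, θ_k` and `ε > 0` there is a positive `n` in `S` such that all the `n θ_i` are
at distance `< ε` from the integers -/
def BohrRec (S : Set ℕ) : Prop :=
  ∀ (k : ℕ) (θ : Fin k → ℝ) (ε : ℝ), 0 < ε → ∃ n ∈ S, 0 < n ∧ ∀ i, ∃ m : ℤ, |(n : ℝ) * θ i - m| < ε

/-- The statements on the Li coefficients of `Λ` with the critical line `Re s = x`:

* `line`: `Λ` has no zeros with `Re s > x` iff all zeros are on the line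
* `crit`, `crit_exp`: the criterion on every set of Bohr recurrence, with signs and with subexponential lower bounds
* `primes_sub`, `primes_add`, `powers`, `differences`, `intervals`, `dichotomy`: examples (shifted primes, multiples of `k`-th powers,
  the differences of an infinite set, arbitrarily long intervals) and the dichotomy
* `nbhd`: if there is a zero with `Re s > σ`, the coefficients are `≤ -e^(c n)` for all large `n` in a Bohr neighbourhood of zero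
* `gaps`, `window`: without real zeros to the right of `a`: positive values in every long interval, unconditionally, and large values of
  both signs in every long interval if there is a zero with `Re s > σ` -/
structure LiCriterion (x : ℝ) (Λ : ℂ → ℂ) : Prop where
  line : ZeroFree Λ x ↔ ∀ s : ℂ, Λ s = 0 → s.re = x
  crit : ∀ σ a : ℝ, x ≤ σ → σ < a → Λ a ≠ 0 → ∀ S : Set ℕ, BohrRec S →
    (ZeroFree Λ σ ↔ ∀ n ∈ S, 0 ≤ li Λ σ a n)
  crit_exp : ∀ σ a : ℝ, x ≤ σ → σ < a → Λ a ≠ 0 → ∀ S : Set ℕ, BohrRec S →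
    (ZeroFree Λ σ ↔ ∀ ε : ℝ, 0 < ε → ∃ C : ℝ, ∀ n ∈ S, -(C * Real.exp (ε * n)) ≤ li Λ σ a n)
  primes_sub : ∀ σ a : ℝ, x ≤ σ → σ < a → Λ a ≠ 0 →
    (ZeroFree Λ σ ↔ ∀ p : ℕ, p.Prime → 0 ≤ li Λ σ a (p - 1))
  primes_add : ∀ σ a : ℝ, x ≤ σ → σ < a → Λ a ≠ 0 →
    (ZeroFree Λ σ ↔ ∀ p : ℕ, p.Prime → 0 ≤ li Λ σ a (p + 1))
  powers : ∀ σ a : ℝ, x ≤ σ → σ < a → Λ a ≠ 0 → ∀ m k : ℕ, 0 < m → 0 < k →
    (ZeroFree Λ σ ↔ ∀ y : ℕ, 0 < y → 0 ≤ li Λ σ a (m * y ^ k))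
  differences : ∀ σ a : ℝ, x ≤ σ → σ < a → Λ a ≠ 0 → ∀ T : Set ℕ, T.Infinite →
    (ZeroFree Λ σ ↔ ∀ s ∈ T, ∀ t ∈ T, t < s → 0 ≤ li Λ σ a (s - t))
  intervals : ∀ σ a : ℝ, x ≤ σ → σ < a → Λ a ≠ 0 →
    (ZeroFree Λ σ ↔ ∀ L : ℕ, ∃ b : ℕ, ∀ i < L, 0 ≤ li Λ σ a (b + i))
  dichotomy : ∀ σ a : ℝ, x ≤ σ → σ < a → Λ a ≠ 0 → (ZeroFree Λ σ ↔ BohrRec {n | 0 ≤ li Λ σ a n})
  nbhd : ∀ σ a : ℝ, x ≤ σ → σ < a → Λ a ≠ 0 → ¬ZeroFree Λ σ →
    ∃ c : ℝ, 0 < c ∧ ∃ (k : ℕ) (θ : Fin k → ℝ) (δ : ℝ), 0 < δ ∧ ∃ N : ℕ, ∀ n : ℕ, N ≤ n →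
      (∀ i, ∃ m : ℤ, |(n : ℝ) * θ i - m| < δ) → li Λ σ a n ≤ -Real.exp (c * n)
  gaps : ∀ σ a : ℝ, x ≤ σ → σ < a → (∀ t : ℝ, a ≤ t → Λ t ≠ 0) →
    ∃ L : ℕ, ∀ b : ℕ, ∃ n, b ≤ n ∧ n < b + L ∧ 0 < li Λ σ a n
  window : ∀ σ a : ℝ, x ≤ σ → σ < a → (∀ t : ℝ, a ≤ t → Λ t ≠ 0) → ¬ZeroFree Λ σ →
    ∃ c : ℝ, 0 < c ∧ ∃ L N : ℕ, ∀ b : ℕ, N ≤ b →
      (∃ n, b ≤ n ∧ n < b + L ∧ Real.exp (c * n) ≤ li Λ σ a n) ∧
      (∃ n, b ≤ n ∧ n < b + L ∧ li Λ σ a n ≤ -Real.exp (c * n))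

theorem liCriterion_of {x : ℝ} {Λ : ℂ → ℂ} (hline : ZeroFree Λ x ↔ ∀ s : ℂ, Λ s = 0 → s.re = x)
    (h : ∀ σ a : ℝ, x ≤ σ → σ < a → Λ a ≠ 0 →
      Run7.h278.LI.LiFacts (li Λ σ a) (ZeroFree Λ σ) (∀ t : ℝ, a ≤ t → Λ t ≠ 0)) : LiCriterion x Λ where
  line := hline
  crit σ a h1 h2 h3 _ hS := (h σ a h1 h2 h3).crit hS
  crit_exp σ a h1 h2 h3 _ hS := (h σ a h1 h2 h3).crit_eps hS
  primes_sub σ a h1 h2 h3 := (h σ a h1 h2 h3).examples.1
  primes_add σ a h1 h2 h3 := (h σ a h1 h2 h3).examples.2.1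
  powers σ a h1 h2 h3 := (h σ a h1 h2 h3).examples.2.2.1
  differences σ a h1 h2 h3 := (h σ a h1 h2 h3).examples.2.2.2.1
  intervals σ a h1 h2 h3 := (h σ a h1 h2 h3).examples.2.2.2.2.1
  dichotomy σ a h1 h2 h3 := (h σ a h1 h2 h3).examples.2.2.2.2.2
  nbhd σ a h1 h2 h3 h4 := (h σ a h1 h2 h3).nbhd h4
  gaps σ a h1 h2 h3 := (h σ a h1 h2 (h3 a le_rfl)).gaps h3
  window σ a h1 h2 h3 h4 := (h σ a h1 h2 (h3 a le_rfl)).window h3 h4

/-- **Main theorem.** For every elliptic curve `E : y² = x³ + a x + b` over `ℚ` of conductor `N` the completed L-function `Λ` exists, is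
unique, has no zeros with `Re s > 3/2`, and satisfies the criterion. -/
theorem result (a b : ℤ) (N : ℕ) [NeZero N] (f : CuspForm (Gamma0 N : Subgroup (GL (Fin 2) ℝ)) 2) (w : ℝ)
    (_hE : 4 * a ^ 3 + 27 * b ^ 2 ≠ 0) (hf : IsFormOf a b N f w) :
    ∃ Λ : ℂ → ℂ, IsCompleted f Λ ∧ (∀ Λ', IsCompleted f Λ' → Λ' = Λ) ∧
      (∀ s : ℂ, Λ (2 - s) = (w : ℂ) * Λ s) ∧ (∀ s : ℂ, 3 / 2 < s.re → Λ s ≠ 0) ∧ LiCriterion 1 Λ := by
  have hf' : Pool.Agent.W169.HF.IsForm N f w :=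
    { one := hf.one
      real := hf.real
      mul := hf.mul
      pow := hf.pow
      sign := hf.sign
      fricke := hf.fricke
      good := hf.good
      bad := fun p hp hpN => by
        have h1 : (1 : ℝ) ≤ Real.sqrt p := by
          rw [Real.one_le_sqrt]
          exact_mod_cast hp.one_le
        have h2 : ‖coef f p‖ ≤ 1 := by
          rcases hf.bad p hp hpN with h | h | h <;> simp [h]
        exact h2.trans h1 }
  obtain ⟨Λ, hΛ, hfe, -, -⟩ := Pool.Agent.W174.HF.nf1 N f w hf'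
  obtain ⟨h3, h5⟩ := Run7.h278.LI.facts_ec hf' hΛ.1 hΛ.2
  refine ⟨Λ, hΛ, fun Λ' h' => Pool.Agent.W169.HF.completed_unique h' hΛ, hfe, h3,
    liCriterion_of ?_ fun σ b hσ hb hne => h5 σ b hσ hb hne⟩
  refine Run7.h278.LI.zf_line fun s hs => ?_
  have e : 2 * ((1 : ℝ) : ℂ) - s = 2 - s := by
    push_cast
    ring
  rw [e, hfe, hs, mul_zero]

end Pool.Agent.Results.MP_553913_nt.LiRecurrence
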