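import Pool.Agent.Run7.h278.LI.KLx
import Pool.Agent.Results.MP_fb225e_nt.UniformHeatDerivatives

set_option autoImplicit false

/-!
# MP_fb225e_nt: Li's criterion on thin sets of indices for elliptic curves over number fields and all half-planes

Let `Λ = Λ(E/K, s)` be the completed L-function of an elliptic curve over a number field `K`, entire, of finite order and with the
functional equation `Λ(s) = ± Λ(2 - s)`. For `σ ≥ 1` and a real base point `a > σ` with `Λ(a) ≠ 0` let `λ_n = λ_n(σ, a)` be `n` times the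
coefficient of `z ^ n` of `log (Λ(σ + (a - σ) (1 + z) / (1 - z)) / Λ(a))` (its real part). For every set `S` of Bohr recurrence, `Λ` has
no zeros with `Re s > σ` if and only if `λ_n ≥ 0` for all `n ∈ S`; for `σ = 1` this is the Riemann hypothesis for `L(E/K, s)`. For
`E/ℚ` of conductor `N` and abelian `K` of conductor prime to `N` nothing is assumed.
-/

namespace Pool.Agent.Results.MP_fb225e_nt.LiRecurrence

open Complex UpperHalfPlane MatrixGroups CongruenceSubgroup NumberField IsDedekindDomain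
open scoped ComplexConjugate
open Pool.Agent.Results.MP_fb225e_nt.UniformHeatDerivatives (MinimalModels HasseWeil localFactor IsFormOf IsCompleted coef)

/-- `Λ` has no zeros with `Re s > σ` -/
def ZeroFree (Λ : ℂ → ℂ) (σ : ℝ) : Prop := ∀ s : ℂ, Λ s = 0 → s.re ≤ σ

/-- The Li coefficient `λ_n(σ, a)` of `Λ` with respect to the half-plane `Re s > σ` and the base point `a > σ`: the real part of `n` times
the coefficient of `z ^ n` in the Taylor series of `log (Λ(σ + (a - σ) (1 + z) / (1 - z)) / Λ(a))` at `z = 0` -/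
noncomputable def li (Λ : ℂ → ℂ) (σ a : ℝ) (n : ℕ) : ℝ :=
  n * (iteratedDeriv n (fun z : ℂ => Complex.log (Λ (σ + (a - σ) * ((1 + z) / (1 - z))) / Λ a)) 0).re / n.factorial

/-- `S` is a set of Bohr recurrence: for all real `θ_1, …, θ_k` and `ε > 0` there is a positive `n` in `S` such that all the `n θ_i` are
at distance `< ε` from the integers -/
def BohrRec (S : Set ℕ) : Prop :=
  ∀ (k : ℕ) (θ : Fin k → ℝ) (ε : ℝ), 0 < ε → ∃ n ∈ S, 0 < n ∧ ∀ i, ∃ m : ℤ, |(n : ℝ) * θ i - m| < ε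

/-- The statements on the Li coefficients of `Λ` with the critical line `Re s = x`:

* `line`: `Λ` has no zeros with `Re s > x` iff all zeros are on the line
* `crit`, `crit_exp`: the criterion on every set of Bohr recurrence, with signs and with subexponential lower bounds
* `primes_sub`, `primes_add`, `powers`, `differences`, `intervals`, `dichotomy`: examples (shifted primes, multiples of `k`-th powers,
  the differences of an infinite set, arbitrarily long intervals) and the dichotomy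
* `nbhd`: if there is a zero with `Re s > σ`, the coefficients are `≤ -e^(c n)` for all large `n` in a Bohr neighbourhood of zero
* `gaps`, `window`: without real zeros to the right of `a`: positive values in every long interval, unconditionally, and large values of
  both signs in every long interval if there is a zero with `Re s > σ` -/
structure LiCriterion (x : ℝ) (Λ : ℂ → ℂ) : Prop where
  line : ZeroFree Λ x ↔ ∀ s : ℂ, Λ s = 0 → s.re = x
  crit : ∀ σ a : ℝ, x ≤ σ → σ < a → Λ a ≠ 0 → ∀ S : Set ℕ, BohrRec S →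
    (ZeroFree Λ σ ↔ ∀ n ∈ S, 0 ≤ li Λ σ a n)
  crit_exp : ∀ σ a : ℝ, x ≤ σ → σ < a → Λ a ≠ 0 → ∀ S : Set ℕ, BohrRec S →
    (ZeroFree Λ σ ↔ ∀ ε : ℝ, 0 < ε → ∃ C : ℝ, ∀ n ∈ S, -(C * Real.exp (ε * n)) ≤ li Λ σ a n)
  primes_sub : ∀ σ a : ℝ, x ≤ σ → σ < a → Λ a ≠ 0 →
    (ZeroFree Λ σ ↔ ∀ p : ℕ, p.Prime → 0 ≤ li Λ σ a (p - 1))
  primes_add : ∀ σ a : ℝ, x ≤ σ → σ < a → Λ a ≠ 0 →
    (ZeroFree Λ σ ↔ ∀ p : ℕ, p.Prime → 0 ≤ li Λ σ a (p + 1))
  powers : ∀ σ a : ℝ, x ≤ σ → σ < a → Λ a ≠ 0 → ∀ m k : ℕ, 0 < m → 0 < k →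
    (ZeroFree Λ σ ↔ ∀ y : ℕ, 0 < y → 0 ≤ li Λ σ a (m * y ^ k))
  differences : ∀ σ a : ℝ, x ≤ σ → σ < a → Λ a ≠ 0 → ∀ T : Set ℕ, T.Infinite →
    (ZeroFree Λ σ ↔ ∀ s ∈ T, ∀ t ∈ T, t < s → 0 ≤ li Λ σ a (s - t))
  intervals : ∀ σ a : ℝ, x ≤ σ → σ < a → Λ a ≠ 0 →
    (ZeroFree Λ σ ↔ ∀ L : ℕ, ∃ b : ℕ, ∀ i < L, 0 ≤ li Λ σ a (b + i))
  dichotomy : ∀ σ a : ℝ, x ≤ σ → σ < a → Λ a ≠ 0 → (ZeroFree Λ σ ↔ BohrRec {n | 0 ≤ li Λ σ a n})
  nbhd : ∀ σ a : ℝ, x ≤ σ → σ < a → Λ a ≠ 0 → ¬ZeroFree Λ σ →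
    ∃ c : ℝ, 0 < c ∧ ∃ (k : ℕ) (θ : Fin k → ℝ) (δ : ℝ), 0 < δ ∧ ∃ N : ℕ, ∀ n : ℕ, N ≤ n →
      (∀ i, ∃ m : ℤ, |(n : ℝ) * θ i - m| < δ) → li Λ σ a n ≤ -Real.exp (c * n)
  gaps : ∀ σ a : ℝ, x ≤ σ → σ < a → (∀ t : ℝ, a ≤ t → Λ t ≠ 0) →
    ∃ L : ℕ, ∀ b : ℕ, ∃ n, b ≤ n ∧ n < b + L ∧ 0 < li Λ σ a n
  window : ∀ σ a : ℝ, x ≤ σ → σ < a → (∀ t : ℝ, a ≤ t → Λ t ≠ 0) → ¬ZeroFree Λ σ →
    ∃ c : ℝ, 0 < c ∧ ∃ L N : ℕ, ∀ b : ℕ, N ≤ b →
      (∃ n, b ≤ n ∧ n < b + L ∧ Real.exp (c * n) ≤ li Λ σ a n) ∧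
      (∃ n, b ≤ n ∧ n < b + L ∧ li Λ σ a n ≤ -Real.exp (c * n))

theorem liCriterion_of {x : ℝ} {Λ : ℂ → ℂ} (hline : ZeroFree Λ x ↔ ∀ s : ℂ, Λ s = 0 → s.re = x)
    (h : ∀ σ a : ℝ, x ≤ σ → σ < a → Λ a ≠ 0 →
      Run7.h278.LI.LiFacts (li Λ σ a) (ZeroFree Λ σ) (∀ t : ℝ, a ≤ t → Λ t ≠ 0)) : LiCriterion x Λ where
  line := hline
  crit σ a h1 h2 h3 _ hS := (h σ a h1 h2 h3).crit hS
  crit_exp σ a h1 h2 h3 _ hS := (h σ a h1 h2 h3).crit_eps hS
  primes_sub σ a h1 h2 h3 := (h σ a h1 h2 h3).examples.1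
  primes_add σ a h1 h2 h3 := (h σ a h1 h2 h3).examples.2.1
  powers σ a h1 h2 h3 := (h σ a h1 h2 h3).examples.2.2.1
  differences σ a h1 h2 h3 := (h σ a h1 h2 h3).examples.2.2.2.1
  intervals σ a h1 h2 h3 := (h σ a h1 h2 h3).examples.2.2.2.2.1
  dichotomy σ a h1 h2 h3 := (h σ a h1 h2 h3).examples.2.2.2.2.2
  nbhd σ a h1 h2 h3 h4 := (h σ a h1 h2 h3).nbhd h4
  gaps σ a h1 h2 h3 := (h σ a h1 h2 (h3 a le_rfl)).gaps h3
  window σ a h1 h2 h3 h4 := (h σ a h1 h2 (h3 a le_rfl)).window h3 h4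

/-- **Main theorem.**

* (I) for every elliptic curve over every number field for which the conjecture of Hasse and Weil holds;
* (II) for every elliptic curve over `ℚ` of conductor `N` and every abelian number field of conductor prime to `N` (group of characters
  `G` modulo `M`), unconditionally. -/
theorem result :
    (∀ (K : Type) [Field K] [NumberField K] (E : WeierstrassCurve K) [E.IsElliptic]
      (W : HeightOneSpectrum (𝓞 K) → WeierstrassCurve (𝓞 K)), MinimalModels E W →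
      ∀ (A : ℝ) (Λ : ℂ → ℂ), HasseWeil W A Λ →
        (∀ s : ℂ, 9 / 4 < s.re → Λ s ≠ 0) ∧ LiCriterion 1 Λ) ∧
    (∀ (a b : ℤ) (N : ℕ) [NeZero N] (f : CuspForm (Gamma0 N : Subgroup (GL (Fin 2) ℝ)) 2) (w : ℝ),
      4 * a ^ 3 + 27 * b ^ 2 ≠ 0 → IsFormOf a b N f w →
      ∀ (M : ℕ) [NeZero M] (G : Subgroup (DirichletCharacter ℂ M)) [Fintype G], Nat.Coprime M N →
      ∃ Λ : ℂ → ℂ, IsCompleted G f Λ ∧ (∀ Λ' : ℂ → ℂ, IsCompleted G f Λ' → Λ' = Λ) ∧
        (∀ s : ℂ, 3 / 2 < s.re → Λ s ≠ 0) ∧ LiCriterion 1 Λ) := by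
  refine ⟨?_, ?_⟩
  · intro K _ _ E _ W _ A Λ h
    classical
    have hk : Pool.Agent.TH839.UH.KL
        (fun v : HeightOneSpectrum (𝓞 K) => ((Ideal.absNorm v.asIdeal : ℂ)
          - (Nat.card {xy : (𝓞 K ⧸ v.asIdeal) × (𝓞 K ⧸ v.asIdeal) //
            ((W v).map (Ideal.Quotient.mk v.asIdeal)).toAffine.Equation xy.1 xy.2} : ℂ)))
        (fun v => if (W v).Δ ∈ v.asIdeal then 0 else (Ideal.absNorm v.asIdeal : ℂ)) A Λ := by
      refine ⟨fun v => Pool.Agent.TH839.UH.trace_le v _, fun v => ?_, fun v => ?_, fun v => ?_,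
        h.one_le, h.entire, h.order, h.fe, ?_⟩
      · show ‖(if (W v).Δ ∈ v.asIdeal then 0 else (Ideal.absNorm v.asIdeal : ℂ))‖ ≤
          ((Ideal.absNorm v.asIdeal : ℕ) : ℝ)
        split_ifs
        · rw [norm_zero]
          exact Nat.cast_nonneg _
        · rw [Complex.norm_natCast]
      · show conj ((Ideal.absNorm v.asIdeal : ℂ) - ((_ : ℕ) : ℂ)) = _
        rw [map_sub, Complex.conj_natCast, Complex.conj_natCast]
      · show conj (if (W v).Δ ∈ v.asIdeal then 0 else (Ideal.absNorm v.asIdeal : ℂ)) = _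
        split_ifs
        · rw [map_zero]
        · rw [Complex.conj_natCast]
      · obtain ⟨σ, hσ⟩ := h.eq
        refine ⟨σ, fun s hs => ?_⟩
        rw [hσ s hs]
        congr 1
        unfold UniformHeatDerivatives.LSeries Pool.Agent.TH839.UH.EL
        refine tprod_congr fun v => ?_
        unfold localFactor Pool.Agent.TH839.UH.NF.gv Pool.Agent.H921R2.TatePole.nm
        congr 1
        ring
    refine ⟨fun s hs => Run7.h278.LI.kl_ne hk hs, liCriterion_of ?_ fun σ b hσ hb hne =>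
      Run7.h278.LI.facts_kl hk hσ hb hne⟩
    refine Run7.h278.LI.zf_line fun s hs => ?_
    obtain ⟨ε, hε, hfe⟩ := h.fe
    have e : 2 * ((1 : ℝ) : ℂ) - s = 2 - s := by
      push_cast
      ring
    have h1 := hfe s
    rw [hs] at h1
    rw [e]
    rcases hε with rfl | rfl
    · simpa using h1.symm
    · simpa using h1.symm
  · intro a b N _ f w _ hf M _ G _ hco
    have hf' : Pool.Agent.W169.HF.IsForm N f w :=
      { one := hf.one
        real := hf.real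
        mul := hf.mul
        pow := hf.pow
        sign := hf.sign
        fricke := hf.fricke
        good := hf.good
        bad := fun p hp hpN => by
          have h1 : (1 : ℝ) ≤ Real.sqrt p := by
            rw [Real.one_le_sqrt]
            exact_mod_cast hp.one_le
          have h2 : ‖coef f p‖ ≤ 1 := by
            rcases hf.bad p hp hpN with h | h | h <;> simp [h]
          exact h2.trans h1 }
    obtain ⟨Λ, h1, h2, h3, h4, h5⟩ := Run7.h278.LI.facts_ab G hf' hco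
    exact ⟨Λ, ⟨h1, h2⟩, fun Λ' h' => Run7.h278.LI.ent_uniq h1 h'.1 h2 h'.2, h3,
      liCriterion_of h4 fun σ b hσ hb hne => h5 σ b hσ hb hne⟩

end Pool.Agent.Results.MP_fb225e_nt.LiRecurrence
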